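import Mathlib
import Pool.Agent.ZOL.Exp
import Pool.Agent.ZOL.SharpLow
import Pool.Agent.ZOL.Den
import Pool.Agent.U5.DrawPl
import Pool.Agent.Fary.Final

/-!
# A zero-one law for the Birkhoff-Lewis conjecture

For every real `q > 4` exactly one of the following holds.

1. There is `δ > 0` such that every plane graph with `n` vertices has `P(G, q) ≥ δ ^ n`.
2. There is an open interval around `q` in which, for every `g`, the real chromatic roots of the
   plane graphs of girth at least `g` that are 2-degenerate and have a homomorphism to an odd cycle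
   of length at least `g` are dense, and at each of whose points some such graph has a negative
   value.

In particular (`q` fixed) positivity of `P(G, q)` for all plane graphs is equivalent to
nonnegativity for these sparse, almost bipartite graphs, and a zero of one plane graph at one point
of `(4, 5)` produces a dense set of zeros of sparse plane graphs near it.

## Structure of the proof

* `ZOL`, zero-one law.  Suppose `P(G, q) ≥ 0` for all plane `G`.  Discs whose boundary contains a
  4-cycle form a three-dimensional algebra (the relation between the four colour patterns is the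
  one of Birkhoff and Lewis, `Rel.z4_rel`); in its idempotent basis `U0, U1, U2` stacking is
  pointwise multiplication (`stk_val`), rotation and the closing form are explicit (`rot_val`,
  `par_val`).  Let `v` be a vertex of degree five in `G`, and delete one spoke at `v`.  The `k`-th
  power of the rotated disc closed by the disc is plane for every `k`; as `k → ∞` the nonnegativity
  of all these values gives `P(G, q) ≥ c P(G - v, q)` with `c = c(q) > 0` (`ana`, `zol`).  Vertices of
  degree three and four cost the factors `q - 3`, `q - 4`; induction over a smallest counterexample,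
  which is a triangulation (`GMain`, `GDeg`).
* `ZOL/Den`, density.  If `P(G, q) < 0`, deletion of edges leads to a two-terminal network `N` with
  values `A > 0 > B`, `A > |B|` for equal and different colours of the terminals.  An odd number `k`
  of copies of `N` in parallel with `l` paths of odd length has, for suitable `k`, `l` and length,
  a negative value at `x` and a positive value at `y > x` (`ana2`); so there is a root in `(x, y)`.
  Replacing every edge by many parallel paths of odd length multiplies the polynomial by a positive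
  factor, up to a small error (`Sg_tendsto`), and makes the graph sparse.
* `Fary`: combinatorial plane graphs are drawn in the plane with straight edges (`pl_drawn`);
  `U5/DrawPl`: drawings by arcs give combinatorial plane graphs.
-/

set_option autoImplicit false

namespace Pool.Agent.Results.MP_0d034c_co.Dichotomy

/-- The graph `H` is drawn in the plane: the vertices are different points, the edges are injective
arcs that pass through no further vertex, and arcs of different edges have disjoint interiors. -/
def Drawn {V : Type} (H : SimpleGraph V) : Prop :=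
  ∃ (f : V → ℝ × ℝ) (γ : V → V → ℝ → ℝ × ℝ),
    Function.Injective f ∧
    (∀ u v : V, H.Adj u v →
      ContinuousOn (γ u v) (Set.Icc (0 : ℝ) 1) ∧ Set.InjOn (γ u v) (Set.Icc (0 : ℝ) 1) ∧
      γ u v 0 = f u ∧ γ u v 1 = f v ∧
      ∀ t ∈ Set.Ioo (0 : ℝ) 1, ∀ w : V, γ u v t ≠ f w) ∧
    (∀ u v u' v' : V, H.Adj u v → H.Adj u' v' → s(u, v) ≠ s(u', v') →
      ∀ t ∈ Set.Ioo (0 : ℝ) 1, ∀ t' ∈ Set.Ioo (0 : ℝ) 1, γ u v t ≠ γ u' v' t')

/-- The graph `G` has girth at least `g`, it is 2-degenerate (every nonempty finite set of vertices
contains a vertex with at most two neighbours in the set), and it has a homomorphism to an odd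
cycle of length at least `g`. -/
def Sparse {V : Type} (g : ℕ) (G : SimpleGraph V) : Prop :=
  (g : ℕ∞) ≤ G.egirth ∧
  (∀ S : Set V, S.Finite → S.Nonempty → ∃ v ∈ S, {w ∈ S | G.Adj v w}.ncard ≤ 2) ∧
  ∃ k : ℕ, 1 ≤ k ∧ g ≤ 2 * k + 1 ∧ Nonempty (G →g SimpleGraph.cycleGraph (2 * k + 1))

/-- The polynomial `p` is the chromatic polynomial of `G`. -/
def IsChrom {V : Type} (G : SimpleGraph V) (p : Polynomial ℝ) : Prop :=
  ∀ n : ℕ, p.eval (n : ℝ) = (Nat.card (G.Coloring (Fin n)) : ℝ)

/-- All planar graphs have exponentially large values at `q`. -/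
def ExpPos (q : ℝ) : Prop :=
  ∃ δ : ℝ, 0 < δ ∧ ∀ (V : Type) [Fintype V] (G : SimpleGraph V) (p : Polynomial ℝ),
    Drawn G → IsChrom G p → δ ^ Fintype.card V ≤ p.eval q

/-- In an open interval around `q` the real chromatic roots of sparse planar graphs are dense, and at
each of its points some sparse planar graph has a negative value. -/
def RootsDense (q : ℝ) : Prop :=
  ∃ s t : ℝ, s < q ∧ q < t ∧ ∀ g : ℕ,
    (∀ x y : ℝ, s < x → x < y → y < t →
      ∃ (V : Type) (_ : Fintype V) (G : SimpleGraph V) (p : Polynomial ℝ) (z : ℝ),
        Drawn G ∧ Sparse g G ∧ IsChrom G p ∧ x < z ∧ z < y ∧ p.eval z = 0) ∧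
    (∀ x : ℝ, s < x → x < t →
      ∃ (V : Type) (_ : Fintype V) (G : SimpleGraph V) (p : Polynomial ℝ),
        Drawn G ∧ Sparse g G ∧ IsChrom G p ∧ p.eval x < 0)

open Pool.Agent.U5 Pool.Agent.Helper1.PG Pool.Agent.ZOL Pool.Agent.Helper36.BL

private theorem isChrom_cp {V : Type} [Fintype V] (G : SimpleGraph V) : IsChrom G (cp G) := by
  intro n
  rw [natCard_coloring, cp_eval]

private theorem IsChrom.eq {V : Type} [Fintype V] {G : SimpleGraph V} {p : Polynomial ℝ}
    (h : IsChrom G p) : p = cp G := by
  apply poly_ext
  intro n
  rw [h n, natCard_coloring, cp_eval]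

private theorem Drawn.pl {V : Type} [Fintype V] {G : SimpleGraph V} (h : Drawn G) : Pl G :=
  pl_of_planar G h

private theorem drawn_of_pl {V : Type} [Fintype V] {G : SimpleGraph V} (h : Pl G) : Drawn G :=
  Fary.pl_drawn G h

private theorem expPos_of_nonneg {q : ℝ} (h4 : 4 < q) (hP : AllNN q) : ExpPos q := by
  rcases lt_or_ge q 5 with h5 | h5
  · obtain ⟨δ, hδ, h⟩ := exp_bound h4 h5 hP
    exact ⟨δ, hδ, fun V _ G p hG hp => by rw [hp.eq]; exact h V G hG.pl⟩
  · have hpar : GPar q (q - 3) := ⟨by linarith, by linarith, le_refl _⟩
    refine ⟨min (q - 3) 1, lt_min hpar.t0 one_pos, fun V _ G p hG hp => ?_⟩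
    rw [hp.eq]
    exact exp_of_gc hpar (sharp_high h5) V G hG.pl

/-- **Zero-one law for the Birkhoff-Lewis conjecture.**  For every real `q > 4` exactly one of the
following holds: all planar graphs have exponentially large values at `q`, or, in an open interval
around `q`, the chromatic roots of sparse planar graphs are dense and every point is a point of
negativity of such a graph. -/
theorem result (q : ℝ) (hq : 4 < q) :
    (ExpPos q ∨ RootsDense q) ∧ ¬ (ExpPos q ∧ RootsDense q) := by
  constructor
  · by_cases hP : AllNN q
    · exact Or.inl (expPos_of_nonneg hq hP)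
    · right
      unfold AllNN at hP
      push Not at hP
      obtain ⟨V, _, G, hG, hneg⟩ := hP
      obtain ⟨s, t, hs, ht, h⟩ := dense_roots hq G hG hneg
      refine ⟨s, t, hs, ht, fun g => ⟨fun x y h1 h2 h3 => ?_, fun x h1 h2 => ?_⟩⟩
      · obtain ⟨W, _, Y, z, hY, hS, h4, h5, h6⟩ := (h g).2 x y h1 h2 h3
        exact ⟨W, inferInstance, Y, cp Y, z, drawn_of_pl hY, ⟨hS.girth, hS.deg2, hS.hom⟩,
          isChrom_cp Y, h4, h5, h6⟩
      · obtain ⟨W, _, Y, hY, hS, h4⟩ := (h g).1 x h1 h2
        exact ⟨W, inferInstance, Y, cp Y, drawn_of_pl hY, ⟨hS.girth, hS.deg2, hS.hom⟩,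
          isChrom_cp Y, h4⟩
  · rintro ⟨⟨δ, hδ, h⟩, ⟨s, t, hs, ht, h'⟩⟩
    obtain ⟨V, _, G, p, hG, -, hp, hneg⟩ := (h' 0).2 q hs ht
    have h1 := h V G p hG hp
    have h2 : 0 < δ ^ Fintype.card V := pow_pos hδ _
    linarith

end Pool.Agent.Results.MP_0d034c_co.Dichotomy
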