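import Mathlib
import Pool.Agent.Helper55.BLE.FinalN

/-!
# The Birkhoff-Lewis conjecture: small connected transversals and hubs

Let `G` be a subgraph of a graph `H` that is drawn in the plane.  Let `T` be a set of vertices that
is connected in `H`, and let `C` be a set of vertices outside `T`, called hubs, with an ordering
given by `ρ`.  Let `U v = later G C ρ v` be the set of the neighbours in `G` of a hub `v` that are
not hubs or are later hubs.  Suppose that `U v` has at most four elements and no three pairwise
non-adjacent elements.  Suppose that `G - T - C` has a proper two-colouring `κ` such that any two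
non-adjacent elements of `U v` are not hubs and have the same colour, unless one of them is in `T`.
If `T` has at most two vertices, the chromatic polynomial of `G` is positive at every real `q > 4`;
if `T` has at most three vertices, it is positive at every real `q ≥ 9 / 2`.

Proof.  The hubs are removed one by one in the given order (`BLE/HubCount`, `BLE/HubN`): if `U` is
the neighbourhood of the first hub `v` and has no three pairwise non-adjacent elements, then
`P(G) = (1 - |U| / q) P(G - v) + q⁻² ∑ P(((G - v) ⊔ isolated) / ac)`, the sum being over the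
non-adjacent pairs `a, c` in `U`, and the graphs `(G - v) / ac` are again planar.  In the end one has
a planar graph without hubs, given by a labelling of the points of a rectangle by connected classes
(`BLE/ToLG`, `BLE/LGOps`); the class of a vertex `r` of `T` contains the column `0`, and the other
classes of `T` touch it there.  The chromatic polynomial is a sum over the colour patterns of `T` of
falling factorials times polynomials counting extensions (`Helper70/BLB/Patterns`).  Such a polynomial
is a matrix element of a word in the Temperley-Lieb generators and pins at the boundary, which is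
evaluated at `δ = √q` in the path representation on the half line with two or three leaves
(`BLE/BAlg`, `BLE/PTransfer`, `BLE/PinMove`, `BLE/PCount`); a positive eigenvector exists for
`q ≥ |A| + 1 + 1 / (|A| - 1)`, where `|A|` is the number of leaves, and all signs are removed by a
gauge given by `κ` (`BLE/HPos`, `BLE/Base`).
-/

set_option autoImplicit false

namespace Pool.Agent.Results.MP_0d034c_co.HubTransversal

/-- The neighbours of `v` in `G` that are not in `C` or come later than `v` in the ordering of `C`
given by `ρ`. -/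
def later {V : Type} (G : SimpleGraph V) (C : Set V) (ρ : V → ℕ) (v : V) : Set V :=
  {w | G.Adj v w ∧ (w ∈ C → ρ v < ρ w)}

theorem result (V : Type) [Fintype V] (G H : SimpleGraph V) (hGH : G ≤ H)
    (hplanar : ∃ (f : V → ℝ × ℝ) (γ : V → V → ℝ → ℝ × ℝ),
      Function.Injective f ∧
      (∀ u v : V, H.Adj u v →
        ContinuousOn (γ u v) (Set.Icc (0 : ℝ) 1) ∧ Set.InjOn (γ u v) (Set.Icc (0 : ℝ) 1) ∧
        γ u v 0 = f u ∧ γ u v 1 = f v ∧
        ∀ t ∈ Set.Ioo (0 : ℝ) 1, ∀ w : V, γ u v t ≠ f w) ∧
      (∀ u v u' v' : V, H.Adj u v → H.Adj u' v' → s(u, v) ≠ s(u', v') →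
        ∀ t ∈ Set.Ioo (0 : ℝ) 1, ∀ t' ∈ Set.Ioo (0 : ℝ) 1, γ u v t ≠ γ u' v' t'))
    (T : Finset V) (hT : (H.induce (T : Set V)).Preconnected)
    (C : Set V) (ρ : V → ℕ) (hρ : Set.InjOn ρ C) (κ : V → Bool)
    (hκ : ∀ u v : V, G.Adj u v → u ∉ T → v ∉ T → u ∉ C → v ∉ C → κ u ≠ κ v)
    (hC : ∀ v ∈ C, v ∉ T ∧ (later G C ρ v).ncard ≤ 4 ∧
      (∀ a b c : V, a ∈ later G C ρ v → b ∈ later G C ρ v → c ∈ later G C ρ v →
        a ≠ b → b ≠ c → a ≠ c → G.Adj a b ∨ G.Adj b c ∨ G.Adj a c) ∧
      (∀ a b : V, a ∈ later G C ρ v → b ∈ later G C ρ v → a ≠ b →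
        G.Adj a b ∨ (a ∉ C ∧ b ∉ C ∧ (a ∈ T ∨ b ∈ T ∨ κ a = κ b))))
    (p : Polynomial ℝ) (hp : ∀ n : ℕ, p.eval (n : ℝ) = (Nat.card (G.Coloring (Fin n)) : ℝ))
    (q : ℝ) (hq : (T.card ≤ 2 ∧ 4 < q) ∨ (T.card ≤ 3 ∧ 9 / 2 ≤ q)) :
    0 < p.eval q := by
  obtain ⟨f, γ, h1, h2, h3⟩ := hplanar
  have hH : Helper55.BLE.HubsN G T C ρ κ := by
    refine ⟨fun v hv => (hC v hv).1, hρ, fun v hv => (hC v hv).2.1,
      fun v hv a ha b hb c hc h4 h5 h6 => (hC v hv).2.2.1 a b c ha hb hc h4 h5 h6,
      fun v hv a ha b hb h4 => ?_, fun u w h4 h5 h6 h7 h8 => hκ u w h8 h6 h7 h4 h5⟩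
    rcases (hC v hv).2.2.2 a b ha hb h4 with h | ⟨h5, h6, h7⟩
    · exact Or.inl h
    · refine Or.inr ⟨h5, h6, fun h8 h9 => ?_⟩
      rcases h7 with h7 | h7 | h7
      · exact absurd h7 h8
      · exact absurd h7 h9
      · exact h7
  refine Helper55.BLE.hubsN_pos ⟨h1, h2, h3⟩ hGH T hT C ρ κ hH ?_ ?_ p hp
  · rcases hq with hq | hq
    · exact hq.2
    · linarith [hq.2]
  · rcases hq with hq | hq
    · exact Or.inl hq.1
    · exact Or.inr hq

end Pool.Agent.Results.MP_0d034c_co.HubTransversal
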