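import Mathlib
import Pool.Agent.Helper21.U5.Last
import Pool.Agent.U5C.NoFlatN
import Pool.Agent.U5C.CertA
import Pool.Agent.ZOL.SharpLow

/-!
# The sharp lower bound near five

There is `ε > 0` such that for every plane graph with `n ≥ 3` vertices and every real `q > 5 - ε`
the chromatic polynomial satisfies `P(G, q) ≥ q (q - 1) (q - 2) (q - 3) ^ (n - 3)`.

## Structure of the proof

1. *Positivity* for all `q > 5 - ε` (`Helper21/U5/Last`, `U5C`): chains of critical graphs have no
   short separating cycles, by discharging a large one contains a large flat piece of the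
   triangular lattice, where a linear programming certificate applies.
2. *From positivity at `q` to the sharp bound at `q`* (`ZOL`).  Let `v` be a vertex of degree five of
   a smallest counterexample (a triangulation without separating triangles and vertices of degree
   three or four), `H = G - v`, `c i` the number of colourings of `H` with the same colour at the two
   ring neighbours of `r i`.  The disc obtained from `G` by deletion of the spoke `v r i` is glued
   to its rotation; the result is plane, so its value is nonnegative.  In the channels `U0, U1, U2`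
   (idempotents of the disc algebra) the value of the glued graph is an explicit quadratic
   polynomial in `P(H)` and the `c i` (`Pos`, `SharpLow.pair_ring`).  The five inequalities imply
   `P(G) ≥ (3/20) P(H)` (`RatR.rat_real`), and with `P(G) = ∑ c i - (5 - q) P(H)` and the induction
   hypothesis for the graphs with two identified vertices, `c i ≥ ...`, the sharp bound follows.
3. `q ≥ 5` (`sharp_high`), the classical range.
-/

set_option autoImplicit false

namespace Pool.Agent.Results.MP_0d034c_co.SharpGap

open Pool.Agent.U5 Pool.Agent.U5C in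
/-- No flat balls of radius `12` in critical graphs. -/
theorem noFlat : ∃ c0 : ℝ, 0 < c0 ∧ NoFlat plCls c0 12 := by
  obtain ⟨δ, hδ, c, hc, h⟩ := cert5N
  exact noFlat12N (p := 4093) (n := 12) (z := zA) ⟨δ, hδ, c, hc, fun q hq PH PX Φ0 Φ1 h0 w =>
    h q hq PH PX Φ0 Φ1 h0 ⟨w.sym0, w.sym1, w.pos0, w.pos1, w.col0, w.col1, w.fA, w.fB, w.one,
      w.all⟩⟩

/-- The graph `H` is drawn in the plane: the vertices are different points, the edges are injective
arcs that pass through no further vertex, and arcs of different edges have disjoint interiors. -/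
def Drawn {V : Type} (H : SimpleGraph V) : Prop :=
  ∃ (f : V → ℝ × ℝ) (γ : V → V → ℝ → ℝ × ℝ),
    Function.Injective f ∧
    (∀ u v : V, H.Adj u v →
      ContinuousOn (γ u v) (Set.Icc (0 : ℝ) 1) ∧ Set.InjOn (γ u v) (Set.Icc (0 : ℝ) 1) ∧
      γ u v 0 = f u ∧ γ u v 1 = f v ∧
      ∀ t ∈ Set.Ioo (0 : ℝ) 1, ∀ w : V, γ u v t ≠ f w) ∧
    (∀ u v u' v' : V, H.Adj u v → H.Adj u' v' → s(u, v) ≠ s(u', v') →
      ∀ t ∈ Set.Ioo (0 : ℝ) 1, ∀ t' ∈ Set.Ioo (0 : ℝ) 1, γ u v t ≠ γ u' v' t')

open Pool.Agent.U5 Pool.Agent.Helper1.PG Pool.Agent.ZOL in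
/-- The sharp bound for combinatorial plane graphs. -/
private theorem sharp_pl : ∃ ε : ℝ, 0 < ε ∧ ∀ q : ℝ, 5 - ε < q → ∀ (V : Type) [Fintype V]
    (G : SimpleGraph V), Pl G → 3 ≤ Fintype.card V →
      ZOL.gc q (q - 3) (Fintype.card V) ≤ P q G := by
  obtain ⟨ε, δ, hε, hδ, h⟩ := Helper21.U5.gap_of_noFlat noFlat
  refine ⟨min ε (1 / 100), lt_min hε (by norm_num), fun q hq V _ G hG h3 => ?_⟩
  have h1 : 5 - ε < q := by
    have := min_le_left ε (1 / 100)
    linarith
  have h2 : 5 - 1 / 100 < q := by
    have := min_le_right ε (1 / 100)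
    linarith
  rcases lt_or_ge q 5 with h5 | h5
  · refine sharp_low (by linarith) h5 (fun W _ Y hY => ?_) V G hG h3
    exact (pow_pos hδ _).le.trans (h q h1 W Y hY)
  · exact sharp_high h5 V G hG h3

open Pool.Agent.U5 Pool.Agent.Helper1.PG Pool.Agent.ZOL Pool.Agent.Helper36.BL in
/-- **The sharp lower bound near five.**  There is `ε > 0` such that for every finite simple graph
`G` with `n ≥ 3` vertices drawn in the plane, its chromatic polynomial `p` and every real
`q > 5 - ε` one has `p(q) ≥ q (q - 1) (q - 2) (q - 3) ^ (n - 3)`. -/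
theorem result :
    ∃ ε : ℝ, 0 < ε ∧ ∀ (V : Type) [Fintype V] (G : SimpleGraph V), Drawn G →
      3 ≤ Fintype.card V →
      ∀ p : Polynomial ℝ, (∀ n : ℕ, p.eval (n : ℝ) = (Nat.card (G.Coloring (Fin n)) : ℝ)) →
        ∀ q : ℝ, 5 - ε < q →
          q * (q - 1) * (q - 2) * (q - 3) ^ (Fintype.card V - 3) ≤ p.eval q := by
  obtain ⟨ε, hε, h⟩ := sharp_pl
  refine ⟨min ε 1, lt_min hε one_pos, fun V _ G hG h3 p hp q hq => ?_⟩
  have h1 : 5 - ε < q := by
    have := min_le_left ε 1
    linarith
  have h2 : 4 < q := by
    have := min_le_right ε 1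
    linarith
  have e : p = cp G := by
    apply poly_ext
    intro n
    rw [hp n, natCard_coloring, cp_eval]
  have key := h q h1 V G (pl_of_planar G hG) h3
  rw [e]
  refine le_of_eq_of_le ?_ key
  obtain ⟨m, hm⟩ := Nat.exists_eq_add_of_le h3
  have h5 : (q - 3) ^ 3 ≠ 0 := (pow_pos (by linarith) 3).ne'
  unfold ZOL.gc
  rw [hm, Nat.add_sub_cancel_left, pow_add, eq_div_iff h5]
  ring

end Pool.Agent.Results.MP_0d034c_co.SharpGap
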