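import Mathlib
import Pool.Agent.SB.CMain
import Pool.Agent.U5.DrawPl

/-!
# The strong Birkhoff-Lewis inequality at the point `τ + 3` of the interval `(4, 5)`

For a planar graph `G` with `n ≥ 3` vertices the chromatic polynomial satisfies
`P(G, q) ≥ q (q - 1) (q - 2) (q - 3) ^ (n - 3)` at `q = τ + 3 = (7 + √5) / 2 = 4.618...`, where `τ` is
the golden ratio.

## Structure of the proof

* `SB/Def` to `SB/GPos`: Tutte's inequality `P(G, τ + 2) ≥ 0` for planar graphs, by the golden
  identity for triangulations (deletion, contraction and flips of edges).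
* `SB/CGlue` to `SB/CConf`: a smallest counterexample of the strong inequality is a triangulation of
  the sphere without separating triangles and with minimum degree at least five; by discharging it
  has two adjacent vertices of degree five or a triangle with degrees `5, 6, 6`.
* `SB/ECon` to `SB/EPosB`: a program which computes with identification patterns of the ring of a
  configuration; the number of colourings of the configuration is written as a nonnegative
  combination of the numbers of colourings of smaller planar graphs at `τ + 3`, which are bounded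
  below by induction, and of sums over one colour class `z` (an independent set) of numbers of
  colourings with the remaining colours, which are values of planar graphs at `τ + 2`, nonnegative by
  Tutte's inequality.
* `SB/CertA`, `SB/CertB`: the two certificates, checked by the kernel, with coefficients in `ℤ[τ]`.
* `U5/DrawPl`: drawings by arcs give combinatorial plane graphs.
-/

set_option autoImplicit false

namespace Pool.Agent.Results.MP_0d034c_co.StrongGolden

/-- The graph `H` is drawn in the plane: the vertices are different points, the edges are injective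
arcs that pass through no further vertex, and arcs of different edges have disjoint interiors. -/
def Drawn {V : Type} (H : SimpleGraph V) : Prop :=
  ∃ (f : V → ℝ × ℝ) (γ : V → V → ℝ → ℝ × ℝ),
    Function.Injective f ∧
    (∀ u v : V, H.Adj u v →
      ContinuousOn (γ u v) (Set.Icc (0 : ℝ) 1) ∧ Set.InjOn (γ u v) (Set.Icc (0 : ℝ) 1) ∧
      γ u v 0 = f u ∧ γ u v 1 = f v ∧
      ∀ t ∈ Set.Ioo (0 : ℝ) 1, ∀ w : V, γ u v t ≠ f w) ∧
    (∀ u v u' v' : V, H.Adj u v → H.Adj u' v' → s(u, v) ≠ s(u', v') →
      ∀ t ∈ Set.Ioo (0 : ℝ) 1, ∀ t' ∈ Set.Ioo (0 : ℝ) 1, γ u v t ≠ γ u' v' t')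

/-- **Strong Birkhoff-Lewis inequality at `τ + 3`.** -/
theorem result (V : Type) [Fintype V] (G : SimpleGraph V) (hG : Drawn G)
    (h3 : 3 ≤ Fintype.card V) (p : Polynomial ℝ)
    (hp : ∀ n : ℕ, p.eval (n : ℝ) = (Nat.card (G.Coloring (Fin n)) : ℝ))
    (q : ℝ) (hq : q = (7 + √5) / 2) :
    q * (q - 1) * (q - 2) * (q - 3) ^ (Fintype.card V - 3) ≤ p.eval q := by
  have e : p = Pool.Agent.Helper36.BL.cp G := by
    apply Pool.Agent.Helper36.BL.poly_ext
    intro n
    rw [hp n, Pool.Agent.Helper36.BL.natCard_coloring, Pool.Agent.Helper36.BL.cp_eval]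
  have h1 := Pool.Agent.SB.sb_main (Pool.Agent.U5.pl_of_planar G hG) h3
  have h2 : q = Pool.Agent.SB.tau + 3 := by
    rw [hq]
    unfold Pool.Agent.SB.tau
    ring
  obtain ⟨m, hm⟩ := Nat.exists_eq_add_of_le h3
  have h4 : Pool.Agent.SB.cc (Fintype.card V) =
      q * (q - 1) * (q - 2) * (q - 3) ^ (Fintype.card V - 3) := by
    have ht := Pool.Agent.SB.tau_pos
    unfold Pool.Agent.SB.cc
    rw [hm, Nat.add_sub_cancel_left, h2, pow_add]
    field_simp
    ring
  rw [e, ← h4, h2]
  exact h1

end Pool.Agent.Results.MP_0d034c_co.StrongGolden
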